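import Pool.Agent.H249R3.PolC.Defs
import Pool.Agent.H249R3.LinC.Null

/-!
# Few oracles give all languages in polynomial time circuits of size `O(n ^ k)`

(helper249)
-/

set_option autoImplicit false

namespace Pool.Agent.H249R3.PolC

open Pool.Agent.NPC Pool.Agent.H620R2.Gauge Pool.Agent.H622R2.Ckt Finset Filter H568R2
open Pool.Agent.H249R3.LinC (card_circuitP)

/-- the padded string -/
def padk (k : ℕ) (w x : List Bool) : List Bool :=
  x ++ List.replicate (w.length * x.length ^ k) false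

/-- the test language -/
def LK (k : ℕ) (A : Oracle) : Set (List Bool) :=
  {y | A (padk k (unpair y).1 (unpair y).2) = true}

theorem LK_isP (k : ℕ) (A : Oracle) : IsP A (LK k A) := by
  apply isP_of_reduces
  have h1 : Poly (fun y => (unpair y).1) := Poly.fst poly_unpair
  have h2 : Poly (fun y => (unpair y).2) := Poly.snd poly_unpair
  have h3 : UPoly (fun y : List Bool =>
      (unpair y).1.length * (Polynomial.X ^ k : Polynomial ℕ).eval (unpair y).2.length) :=
    UPoly.mul (UPoly.length h1) (UPoly.eval (UPoly.length h2) (Polynomial.X ^ k))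
  have h4 : Poly (fun y : List Bool =>
      List.replicate ((unpair y).1.length *
        (Polynomial.X ^ k : Polynomial ℕ).eval (unpair y).2.length) false) :=
    (NPC.Poly.map (F := fun _ _ => false) h3 (NPC.Poly.const false)).congr fun x => by simp
  have h5 : Poly (fun y : List Bool =>
      List.replicate ((unpair y).1.length * (unpair y).2.length ^ k) false) :=
    h4.congr fun x => by simp
  refine ⟨fun y => padk k (unpair y).1 (unpair y).2,
    Pool.Agent.H622R2.polyTime_of_poly_list (Poly.append h2 h5), fun y => Iff.rfl⟩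

/-- The event: some small circuit decides the test language for the padded inputs. -/
def EvK (d m s N : ℕ) (a : Fin N → Bool) : Prop :=
  ∃ C : Circuit, C.size ≤ s ∧ ∀ x : List Bool, x.length = m →
    (orc N a (x ++ List.replicate s false) =
      C.eval (orc N a) (pairBits (List.replicate d false) x))

open Classical in
theorem evK_small (d m s N : ℕ) (hN : 2 ^ (m + s + 1) ≤ N) :
    Ex unif (fun a : Fin N → Bool => if EvK d m s N a then (1 : ℝ) else 0) ≤
      nC (2 * d + 1 + m) s * (1 / 2) ^ 2 ^ m := by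
  set n := 2 * d + 1 + m with hn
  obtain ⟨F, hF1, hF2⟩ := exists_circuits n s
  have h1 := card_of_Ex (fun a : Fin N → Bool => EvK d m s N a)
  rw [← h1]
  have h2 : (univ.filter (fun a : Fin N → Bool => EvK d m s N a)).card * 2 ^ 2 ^ m ≤
      F.card * 2 ^ N := by
    have h3 : univ.filter (fun a : Fin N → Bool => EvK d m s N a) ⊆
        (F.filter (fun C => C.size ≤ s)).biUnion (fun C =>
          univ.filter (fun a : Fin N → Bool => ∀ x : List Bool, x.length = m →
            (orc N a (x ++ List.replicate s false) =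
              C.eval (orc N a) (pairBits (List.replicate d false) x)))) := by
      intro a ha
      obtain ⟨C, hC1, hC2⟩ := (Finset.mem_filter.1 ha).2
      obtain ⟨C', hC'1, hC'2, hC'3⟩ := hF2 C hC1
      refine Finset.mem_biUnion.2 ⟨C', Finset.mem_filter.2 ⟨hC'1, hC'2⟩,
        Finset.mem_filter.2 ⟨Finset.mem_univ _, fun x hx => ?_⟩⟩
      rw [hC2 x hx, hC'3 _ _ (by
        rw [Pool.Agent.H620R2.Gauge.length_pairBits, List.length_replicate, hx, hn])]
    calc (univ.filter (fun a : Fin N → Bool => EvK d m s N a)).card * 2 ^ 2 ^ m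
        ≤ (∑ C ∈ F.filter (fun C => C.size ≤ s),
          (univ.filter (fun a : Fin N → Bool => ∀ x : List Bool, x.length = m →
            (orc N a (x ++ List.replicate s false) =
              C.eval (orc N a) (pairBits (List.replicate d false) x)))).card) * 2 ^ 2 ^ m :=
          Nat.mul_le_mul_right _ ((Finset.card_le_card h3).trans Finset.card_biUnion_le)
      _ = ∑ C ∈ F.filter (fun C => C.size ≤ s),
          (univ.filter (fun a : Fin N → Bool => ∀ x : List Bool, x.length = m →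
            (orc N a (x ++ List.replicate s false) =
              C.eval (orc N a) (pairBits (List.replicate d false) x)))).card * 2 ^ 2 ^ m := by
          rw [Finset.sum_mul]
      _ ≤ ∑ _C ∈ F.filter (fun C => C.size ≤ s), 2 ^ N :=
          Finset.sum_le_sum fun C hC => card_circuitP _ m _ N hN C
            ((Finset.mem_filter.1 hC).2.trans (by omega))
      _ ≤ F.card * 2 ^ N := by
          rw [Finset.sum_const, smul_eq_mul]
          exact Nat.mul_le_mul_right _ (Finset.card_filter_le _ _)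
  have h4 : ((univ.filter (fun a : Fin N → Bool => EvK d m s N a)).card : ℝ) * 2 ^ 2 ^ m ≤
      nC n s * 2 ^ N := by
    have h5 : (univ.filter (fun a : Fin N → Bool => EvK d m s N a)).card * 2 ^ 2 ^ m ≤
        nC n s * 2 ^ N := h2.trans (Nat.mul_le_mul_right _ hF1)
    exact_mod_cast h5
  rw [Real.rpow_neg (by norm_num), Real.rpow_natCast, ← div_eq_mul_inv,
    div_le_iff₀ (by positivity)]
  have h6 : ((1 : ℝ) / 2) ^ 2 ^ m * 2 ^ 2 ^ m = 1 := by
    rw [← mul_pow]; norm_num
  calc ((univ.filter (fun a : Fin N → Bool => EvK d m s N a)).card : ℝ)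
      = ((univ.filter (fun a : Fin N → Bool => EvK d m s N a)).card * 2 ^ 2 ^ m) *
          (1 / 2) ^ 2 ^ m := by
        rw [mul_assoc, mul_comm ((2 : ℝ) ^ 2 ^ m), h6, mul_one]
    _ ≤ (nC n s * 2 ^ N) * (1 / 2) ^ 2 ^ m :=
        mul_le_mul_of_nonneg_right h4 (by positivity)
    _ = nC n s * (1 / 2) ^ 2 ^ m * 2 ^ N := by ring

/-- the conditions on the length -/
def Fine (k d m : ℕ) : Prop :=
  6 ≤ m ∧ 2 * d + 1 ≤ m ∧
    (2 * d + 1 + m) + d * m ^ k + 8 ≤ 2 ^ m ∧
    4 * (m * (4 * (d * m ^ k) + 4)) ≤ 2 ^ m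

theorem fine_ev (k d : ℕ) : ∀ᶠ m : ℕ in atTop, Fine k d m := by
  have h1 := Pool.Agent.H622R2.Exp.E0.poly_le
    ((Polynomial.X + Polynomial.C (2 * d + 1)) +
      Polynomial.C d * Polynomial.X ^ k + Polynomial.C 8) 1
  have h2 := Pool.Agent.H622R2.Exp.E0.poly_le
    (Polynomial.X * (Polynomial.C 4 * (Polynomial.C d * Polynomial.X ^ k) + Polynomial.C 4)) 4
  filter_upwards [h1, h2, eventually_ge_atTop 6, eventually_ge_atTop (2 * d + 1)]
    with m h1 h2 h3 h4
  simp only [Polynomial.eval_add, Polynomial.eval_mul, Polynomial.eval_C,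
    Polynomial.eval_X, Polynomial.eval_pow, one_mul] at h1 h2
  refine ⟨h3, h4, ?_, h2⟩
  omega

theorem nC_fine {k d m : ℕ} (h : Fine k d m) :
    nC (2 * d + 1 + m) (d * m ^ k) ≤ 2 ^ 2 ^ (m - 2) := by
  obtain ⟨h1, h2, h3, h4⟩ := h
  unfold nC
  calc (2 * d + 1 + m + d * m ^ k + 8) ^ (4 * (d * m ^ k) + 4)
      ≤ (2 ^ m) ^ (4 * (d * m ^ k) + 4) := Nat.pow_le_pow_left h3 _
    _ = 2 ^ (m * (4 * (d * m ^ k) + 4)) := by rw [← pow_mul]
    _ ≤ 2 ^ 2 ^ (m - 2) := by
        apply Nat.pow_le_pow_right (by norm_num)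
        have h5 : 2 ^ m = 4 * 2 ^ (m - 2) := by
          have : m = (m - 2) + 2 := by omega
          rw [this, pow_add]
          simp
          ring
        omega

theorem null_c {f : ℕ → ℝ} {k : ℕ} (hk : k ≠ 0) (c : ℕ)
    (hf : ∀ δ : ℝ, 0 < δ → ∃ᶠ N : ℕ in atTop, f N ≤ (2 : ℝ) ^ (δ * Real.logb 2 N ^ (k : ℝ)⁻¹)) :
    Null f {A | ∀ n : ℕ, 1 ≤ n → ∃ C : Circuit, C.size ≤ c * n ^ k ∧
      ∀ x : List Bool, x.length = n → (x ∈ LK k A ↔ C.eval A x = true)} := by
  classical
  intro η hη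
  set d := c * 2 ^ k with hd
  obtain ⟨m₁, hm₁⟩ := exists_pow_lt_of_lt_one hη (show (1 / 2 : ℝ) < 1 by norm_num)
  obtain ⟨m₂, hm₂⟩ := Filter.eventually_atTop.1 (fine_ev k d)
  set m₀ := max m₁ m₂ with hm₀
  set q := d + 2 with hq
  have hq0 : 0 < q := by omega
  obtain ⟨N, hN1, hN2⟩ := ((hf (1 / (2 * q)) (by positivity)).and_eventually
    (eventually_ge_atTop (2 ^ (q * m₀ ^ k + m₀)))).exists
  set a := Nat.log 2 N with ha
  have hN0 : N ≠ 0 := by
    have : 0 < 2 ^ (q * m₀ ^ k + m₀) := by positivity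
    omega
  have ha1 : q * m₀ ^ k + m₀ ≤ a := Nat.le_log_of_pow_le (by norm_num) hN2
  have ha2 : 2 ^ a ≤ N := Nat.pow_log_le_self 2 hN0
  have ha3 : N < 2 ^ (a + 1) := Nat.lt_pow_succ_log_self (by norm_num) N
  set m := Nat.findGreatest (fun m => q * m ^ k ≤ a) a with hm
  have hmm₀ : m₀ ≤ m := by
    rw [hm]
    exact Nat.le_findGreatest (by omega) (by omega)
  have hm1 : q * m ^ k ≤ a := by
    rw [hm]
    exact Nat.findGreatest_spec (P := fun m => q * m ^ k ≤ a) (m := m₀) (by omega)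
      (show q * m₀ ^ k ≤ a by omega)
  have hm2 : a < q * (m + 1) ^ k := by
    by_contra hcon
    push Not at hcon
    have h1 : m + 1 ≤ a := by
      have h2 : m + 1 ≤ (m + 1) ^ k := Nat.le_self_pow hk _
      have h3 : (m + 1) ^ k ≤ q * (m + 1) ^ k := Nat.le_mul_of_pos_left _ hq0
      omega
    have h2 : m + 1 ≤ m := by
      conv_rhs => rw [hm]
      exact Nat.le_findGreatest h1 hcon
    omega
  have hfine : Fine k d m := hm₂ m ((le_max_right _ _).trans hmm₀)
  obtain ⟨h6, hcm, h8, h9⟩ := id hfine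
  have hmk : m ≤ m ^ k := Nat.le_self_pow hk m
  have hqm : q * m ^ k = m ^ k + m ^ k + d * m ^ k := by rw [hq]; ring
  have hNm : 2 ^ (m + d * m ^ k + 1) ≤ N :=
    (Nat.pow_le_pow_right (by norm_num) (by omega)).trans ha2
  refine cover_of_event (EvK d m (d * m ^ k) N) _ ?_ f η ?_
  · intro A hA
    set n := 2 * d + 1 + m with hn
    obtain ⟨C, hC1, hC2⟩ := hA n (by omega)
    have hk1 : c * n ^ k ≤ d * m ^ k := by
      have h1 : n ^ k ≤ (2 * m) ^ k := Nat.pow_le_pow_left (by omega) k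
      rw [mul_pow] at h1
      calc c * n ^ k ≤ c * (2 ^ k * m ^ k) := Nat.mul_le_mul_left c h1
        _ = d * m ^ k := by rw [hd]; ring
    have hid : ∀ y : List Bool, y.length ≤ m + d * m ^ k → orc N (pre N A) y = A y := by
      intro y hy
      apply orc_pre
      have h2 := idx_lt y
      have h3 : 2 ^ (y.length + 1) ≤ 2 ^ (m + d * m ^ k + 1) :=
        Nat.pow_le_pow_right (by norm_num) (by omega)
      omega
    refine ⟨C, hC1.trans hk1, fun x hx => ?_⟩
    rw [hid _ (by rw [List.length_append, List.length_replicate, hx]),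
      eval_local C (orc N (pre N A)) A (fun y hy => hid y (by omega)) _]
    have h2 := hC2 (pairBits (List.replicate d false) x) (by
      rw [Pool.Agent.H620R2.Gauge.length_pairBits, List.length_replicate, hx])
    unfold LK padk at h2
    rw [Set.mem_ofPred_eq, unpair_pairBits] at h2
    simp only [List.length_replicate, hx] at h2
    rw [Bool.eq_iff_iff]
    exact h2
  · have hev := evK_small d m (d * m ^ k) N hNm
    have hnC : ((nC (2 * d + 1 + m) (d * m ^ k) : ℕ) : ℝ) ≤ 2 ^ 2 ^ (m - 2) := by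
      exact_mod_cast nC_fine hfine
    have hg : f N ≤ (2 : ℝ) ^ (m - 2) := by
      refine hN1.trans ?_
      rw [← Real.rpow_natCast]
      apply Real.rpow_le_rpow_of_exponent_le (by norm_num)
      have hNpos : (0 : ℝ) < N := by exact_mod_cast Nat.pos_of_ne_zero hN0
      have h0 : (0 : ℝ) ≤ Real.logb 2 N :=
        Real.logb_nonneg (by norm_num) (by exact_mod_cast Nat.one_le_iff_ne_zero.2 hN0)
      have h1 : Real.logb 2 N ≤ ((q : ℝ) * (m + 1)) ^ k := by
        have h2 : Real.logb 2 N ≤ ((a + 1 : ℕ) : ℝ) := by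
          rw [Real.logb_le_iff_le_rpow (by norm_num) hNpos, Real.rpow_natCast]
          exact_mod_cast ha3.le
        refine h2.trans ?_
        have h3 : a + 1 ≤ (q * (m + 1)) ^ k := by
          rw [mul_pow]
          have h4 : q ≤ q ^ k := Nat.le_self_pow hk q
          have h5 : q * (m + 1) ^ k ≤ q ^ k * (m + 1) ^ k := Nat.mul_le_mul_right _ h4
          omega
        exact_mod_cast h3
      have h2 : Real.logb 2 N ^ (k : ℝ)⁻¹ ≤ (q : ℝ) * (m + 1) := by
        have h3 := Real.rpow_le_rpow h0 h1 (show (0 : ℝ) ≤ (k : ℝ)⁻¹ by positivity)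
        rwa [Real.pow_rpow_inv_natCast (by positivity) hk] at h3
      have hqr : (0 : ℝ) < q := by exact_mod_cast hq0
      have h3 : 1 / (2 * (q : ℝ)) * Real.logb 2 N ^ (k : ℝ)⁻¹ ≤
          1 / (2 * (q : ℝ)) * ((q : ℝ) * (m + 1)) :=
        mul_le_mul_of_nonneg_left h2 (by positivity)
      refine h3.trans ?_
      have h4 : 1 / (2 * (q : ℝ)) * ((q : ℝ) * (m + 1)) = (m + 1) / 2 := by
        field_simp
      rw [h4, Nat.cast_sub (by omega)]
      have hm6 : (6 : ℝ) ≤ m := by exact_mod_cast h6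
      push_cast
      linarith
    have hg2 : (2 : ℝ) ^ f N ≤ 2 ^ 2 ^ (m - 2) := by
      rw [← Real.rpow_natCast (2 : ℝ) (2 ^ (m - 2))]
      apply Real.rpow_le_rpow_of_exponent_le (by norm_num)
      push_cast
      exact hg
    have hpow : 2 ^ m = 2 ^ (m - 2) + 2 ^ (m - 2) + 2 ^ (m - 1) := by
      have h1 : 2 ^ (m - 1) = 2 * 2 ^ (m - 2) := by
        have : m - 1 = (m - 2) + 1 := by omega
        rw [this, pow_succ]; ring
      have h2 : 2 ^ m = 4 * 2 ^ (m - 2) := by
        have : m = (m - 2) + 2 := by omega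
        rw [this, pow_add]
        simp
        ring
      omega
    have hn1 : m₁ ≤ 2 ^ (m - 1) := by
      have h1 : m - 1 < 2 ^ (m - 1) := Nat.lt_two_pow_self
      have h2 : m₁ ≤ m := (le_max_left _ _).trans hmm₀
      omega
    calc Ex unif (fun a : Fin N → Bool => if EvK d m (d * m ^ k) N a then (1 : ℝ) else 0) *
          2 ^ f N
        ≤ (nC (2 * d + 1 + m) (d * m ^ k) * (1 / 2) ^ 2 ^ m) * 2 ^ f N :=
          mul_le_mul_of_nonneg_right hev (by positivity)
      _ ≤ (2 ^ 2 ^ (m - 2) * (1 / 2) ^ 2 ^ m) * 2 ^ 2 ^ (m - 2) := by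
          apply mul_le_mul _ hg2 (by positivity) (by positivity)
          exact mul_le_mul_of_nonneg_right hnC (by positivity)
      _ = (1 / 2) ^ 2 ^ (m - 1) := by
          rw [hpow, pow_add (1 / 2 : ℝ), pow_add (1 / 2 : ℝ)]
          have h1 : (2 : ℝ) ^ 2 ^ (m - 2) * (1 / 2) ^ 2 ^ (m - 2) = 1 := by
            rw [← mul_pow]; norm_num
          calc _ = ((2 : ℝ) ^ 2 ^ (m - 2) * (1 / 2) ^ 2 ^ (m - 2)) *
                (2 ^ 2 ^ (m - 2) * (1 / 2) ^ 2 ^ (m - 2)) * (1 / 2) ^ 2 ^ (m - 1) := by ring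
            _ = _ := by rw [h1]; ring
      _ ≤ (1 / 2) ^ m₁ := pow_le_pow_of_le_one (by norm_num) (by norm_num) hn1
      _ ≤ η := hm₁.le

theorem null_pow {f : ℕ → ℝ} {k : ℕ} (hk : k ≠ 0)
    (hf : ∀ δ : ℝ, 0 < δ → ∃ᶠ N : ℕ in atTop, f N ≤ (2 : ℝ) ^ (δ * Real.logb 2 N ^ (k : ℝ)⁻¹))
    (O : Set Oracle) (hO : ∀ A ∈ O, ∀ L, IsP A L → PowSize k A L) : Null f O := by
  refine (null_iUnion _ fun c => null_c hk c hf).mono fun A hA => ?_
  obtain ⟨c, hc⟩ := hO A hA _ (LK_isP k A)
  exact Set.mem_iUnion.2 ⟨c, hc⟩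

end Pool.Agent.H249R3.PolC
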