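import Pool.Agent.H249R3.PolC.NonNull
import Pool.Agent.H249R3.PolC.Null
import Pool.Agent.H249R3.LinC.Final

/-!
# The thresholds for circuits of size `O(n ^ k)`

(helper249)
-/

set_option autoImplicit false

namespace Pool.Agent.H249R3.PolC

open Pool.Agent.NPC Pool.Agent.H620R2.Gauge Pool.Agent.H622R2.Ckt Finset Filter
open Pool.Agent.H622R2.Exp (Lin InNTime)
open Pool.Agent.H249R3.LinC (np_ne)

theorem main_pow (f : ℕ → ℝ) {k : ℕ} (hk : k ≠ 0) (O : Set Oracle)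
    (h1 : ∀ A : Oracle, (∀ L, InNTime Lin A L → PowSize k A L) → A ∈ O)
    (h2 : ∀ A ∈ O, ∀ L, IsP A L → PowSize k A L) :
    Null f O ↔ ∀ δ : ℝ, 0 < δ → ∃ᶠ N : ℕ in atTop,
      f N ≤ (2 : ℝ) ^ (δ * Real.logb 2 N ^ (k : ℝ)⁻¹) := by
  constructor
  · intro hn δ hδ
    by_contra hcon
    rw [Filter.not_frequently] at hcon
    exact not_null_pow hk hδ (hcon.mono fun N h => not_le.1 h) O h1 hn
  · intro hf
    exact null_pow hk hf O h2

theorem main_np (f : ℕ → ℝ) {k : ℕ} (hk : k ≠ 0) :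
    Null f {A : Oracle | ∀ L, IsNP A L → PowSize k A L} ↔
      ∀ δ : ℝ, 0 < δ → ∃ᶠ N : ℕ in atTop,
        f N ≤ (2 : ℝ) ^ (δ * Real.logb 2 N ^ (k : ℝ)⁻¹) :=
  main_pow f hk _ (fun _ hA L hL => hA L (np_ne hL)) fun _ hA L hL => hA L hL.isNP

end Pool.Agent.H249R3.PolC
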