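import Pool.Agent.H249R3.PolC.Defs
import Pool.Agent.H249R3.LinC.NonNull

/-!
# Many oracles give all languages in nondeterministic exponential time circuits of size `O(n ^ k)`

(helper249)
-/

set_option autoImplicit false

namespace Pool.Agent.H249R3.PolC

open Pool.Agent.NPC Pool.Agent.H620R2.Gauge Pool.Agent.H622R2.Ckt Finset Filter
open Pool.Agent.H622R2.Exp (Lin InNTime not_null_ev)
open Pool.Agent.H249R3.Ckt (cdn length_cdn count_le pp hl_pp me)
open Pool.Agent.H249R3.LinC (Mac QN cc qn_local exists_ckt)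

/-- the padding -/
noncomputable def RP (k K r : ℕ) (e : ℕ) : Polynomial ℕ :=
  Polynomial.C K * (Polynomial.X + Polynomial.C (e + 1)) ^ k + Polynomial.C r

theorem eval_RP (k K r e m : ℕ) : (RP k K r e).eval m = K * (m + (e + 1)) ^ k + r := by
  unfold RP
  simp only [Polynomial.eval_add, Polynomial.eval_mul, Polynomial.eval_C, Polynomial.eval_X,
    Polynomial.eval_pow]

theorem exists_pad {f : ℕ → ℝ} {k : ℕ} (hk : k ≠ 0) {δ : ℝ} (hδ : 0 < δ)
    (hf : ∀ᶠ N : ℕ in atTop, (2 : ℝ) ^ (δ * Real.logb 2 N ^ (k : ℝ)⁻¹) < f N) : ∃ K r : ℕ,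
    ∀ e m M : ℕ, 2 ^ (RP k K r e).eval m ≤ M → (2 : ℝ) ^ (3 * (e + m) + 3) ≤ f M := by
  obtain ⟨N₀, hN₀⟩ := Filter.eventually_atTop.1 hf
  obtain ⟨K, hK⟩ := exists_nat_ge ((3 / δ) ^ k)
  refine ⟨K, N₀, fun e m M hM => ?_⟩
  rw [eval_RP] at hM
  have h1 : N₀ ≤ M := by
    have h2 : N₀ < 2 ^ N₀ := Nat.lt_two_pow_self
    have h3 : 2 ^ N₀ ≤ 2 ^ (K * (m + (e + 1)) ^ k + N₀) :=
      Nat.pow_le_pow_right (by norm_num) (by omega)
    omega
  refine le_trans ?_ (hN₀ M h1).le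
  have h5 : 2 ^ (K * (m + (e + 1)) ^ k) ≤ M :=
    le_trans (Nat.pow_le_pow_right (by norm_num) (by omega)) hM
  have h4 : (2 : ℝ) ^ (K * (m + (e + 1)) ^ k) ≤ M := by exact_mod_cast h5
  have hM0 : (0 : ℝ) < M := lt_of_lt_of_le (by positivity) h4
  have h6 : ((K : ℝ) * (m + (e + 1)) ^ k) ≤ Real.logb 2 M := by
    rw [Real.le_logb_iff_rpow_le (by norm_num) hM0]
    have h7 : (2 : ℝ) ^ ((K : ℝ) * (m + (e + 1)) ^ k) = (2 : ℝ) ^ (K * (m + (e + 1)) ^ k) := by
      rw [← Real.rpow_natCast (2 : ℝ) (K * (m + (e + 1)) ^ k)]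
      push_cast
      ring_nf
    rw [h7]
    exact h4
  have h8 : ((3 / δ) * ((m : ℝ) + (e + 1))) ^ k ≤ Real.logb 2 M := by
    rw [mul_pow]
    exact (mul_le_mul_of_nonneg_right hK (by positivity)).trans h6
  have h9 : (3 / δ) * ((m : ℝ) + (e + 1)) ≤ Real.logb 2 M ^ (k : ℝ)⁻¹ := by
    have h10 := Real.rpow_le_rpow (by positivity) h8
      (show (0 : ℝ) ≤ (k : ℝ)⁻¹ by positivity)
    rwa [Real.pow_rpow_inv_natCast (by positivity) hk] at h10
  rw [← Real.rpow_natCast]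
  apply Real.rpow_le_rpow_of_exponent_le (by norm_num)
  have h11 := mul_le_mul_of_nonneg_left h9 hδ.le
  have h12 : δ * ((3 / δ) * ((m : ℝ) + (e + 1))) = 3 * ((m : ℝ) + (e + 1)) := by
    field_simp
  rw [h12] at h11
  push_cast
  linarith

open Classical in
theorem not_null_pow {f : ℕ → ℝ} {k : ℕ} (hk : k ≠ 0) {δ : ℝ} (hδ : 0 < δ)
    (hf : ∀ᶠ N : ℕ in atTop, (2 : ℝ) ^ (δ * Real.logb 2 N ^ (k : ℝ)⁻¹) < f N) (O : Set Oracle)
    (hO : ∀ A : Oracle, (∀ L, InNTime Lin A L → PowSize k A L) → A ∈ O) : ¬ Null f O := by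
  have hne : Nonempty Mac := by
    obtain ⟨M, _⟩ := IsFP.of_poly (A := fun _ => false) (F := fun x => x) Poly.id
    exact ⟨(M, 0)⟩
  obtain ⟨g, hg⟩ := exists_surjective_nat Mac
  obtain ⟨K, r, hρ⟩ := exists_pad hk hδ hf
  obtain ⟨Φ, hΦ⟩ := exists_stageN (RP k K r) (pp (cc g)) (QN g) (qn_local g)
  refine not_null_ev f Φ {y | ∃ e z, y = cdn (fun e m => (RP k K r e).eval m) e z} ?_
    (count_le hρ) O ?_
  · intro B y hy
    exact (hΦ B).1 y fun e z h => hy ⟨e, z, h⟩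
  · intro B
    apply hO
    rintro L ⟨V, ⟨M, hM⟩, q, ⟨c', rfl⟩, hV⟩
    obtain ⟨e, he⟩ := hg (M, c')
    have hL : ∀ x, x ∈ L ↔ QN g e x (Φ B) := by
      intro x
      rw [hV x]
      unfold QN
      rw [he, Pool.Agent.H622R2.Exp.YAux.eval_lin]
      simp only [hM, Option.some.injEq]
    set a := 4 * cc g e + 9 with ha
    set b := 4 * (cc g e + e + 2) + 2 with hb
    refine ⟨K * (a + b + (e + 1)) ^ k + (e + r + 3) + (a + b), fun n hn => ?_⟩
    obtain ⟨C, hC1, hC2⟩ := exists_ckt (A := Φ B) (ρ := fun e m => (RP k K r e).eval m)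
      (c := cc g) (e := e) (n := n) (fun x => QN g e x (Φ B)) (fun x hx => by
        subst hx
        exact (hΦ B).2 e x)
    refine ⟨C, ?_, fun x hx => (hL x).trans (hC2 x hx)⟩
    rw [hC1]
    have hme : me (cc g) e n = a * n + b := by
      unfold me
      rw [ha, hb]
      ring
    simp only [eval_RP]
    rw [hme]
    have h1 : 1 ≤ n ^ k := Nat.one_le_pow _ _ hn
    have h2 : n ≤ n ^ k := Nat.le_self_pow hk n
    have h3 : a * n + b + (e + 1) ≤ (a + b + (e + 1)) * n := by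
      nlinarith [Nat.mul_le_mul_left b hn, Nat.mul_le_mul_left (e + 1) hn]
    have h4 : (a * n + b + (e + 1)) ^ k ≤ (a + b + (e + 1)) ^ k * n ^ k := by
      rw [← mul_pow]
      exact Nat.pow_le_pow_left h3 k
    have h5 : K * (a * n + b + (e + 1)) ^ k ≤ K * (a + b + (e + 1)) ^ k * n ^ k := by
      rw [mul_assoc]
      exact Nat.mul_le_mul_left K h4
    have h6 : (e + r + 3) ≤ (e + r + 3) * n ^ k := Nat.le_mul_of_pos_right _ h1
    have h7 : a * n ≤ a * n ^ k := Nat.mul_le_mul_left a h2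
    have h8 : b ≤ b * n ^ k := Nat.le_mul_of_pos_right _ h1
    have h9 : (K * (a + b + (e + 1)) ^ k + (e + r + 3) + (a + b)) * n ^ k =
        K * (a + b + (e + 1)) ^ k * n ^ k + (e + r + 3) * n ^ k + (a * n ^ k + b * n ^ k) := by
      ring
    rw [h9]
    omega

end Pool.Agent.H249R3.PolC
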